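import Mathlib
import Pool.Agent.H33.Contin

set_option autoImplicit false

namespace Pool.Agent.Results.MP_19acf5_gt.ImKleinen

open Set Topology Metric Filter Pool.Agent.H33.Contin

/-- `R` is an indecomposable (Hausdorff) continuum. -/
def Indec {Z : Type} [TopologicalSpace Z] (R : Set Z) : Prop :=
  IsCompact R ∧ IsConnected R ∧ ¬ ∃ A B : Set Z, IsCompact A ∧ IsConnected A ∧ A ⊂ R ∧
    IsCompact B ∧ IsConnected B ∧ B ⊂ R ∧ A ∪ B = R

lemma glue {Z : Type} [TopologicalSpace Z] {R C M N : Set Z} (hR : IsPreconnected R)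
    (hC : IsConnected C) (hCc : IsClosed C) (hM : IsClosed M) (hN : IsClosed N)
    (hMN : M ∩ N ⊆ C) (e : C ∪ M ∪ N = R) : IsPreconnected (C ∪ M) := by
  rw [isPreconnected_iff_subset_of_disjoint_closed]
  have key : ∀ u v : Set Z, IsClosed u → IsClosed v → C ∪ M ⊆ u ∪ v → (C ∪ M) ∩ (u ∩ v) = ∅ →
      C ⊆ u → C ∪ M ⊆ u := by
    intro u v hu hv h1 h2 h3
    have := (isPreconnected_iff_subset_of_disjoint_closed.1 hR) ((u ∩ (C ∪ M)) ∪ N) (v ∩ M)
      ((hu.inter (hCc.union hM)).union hN) (hv.inter hM) (by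
        rw [← e]
        rintro z (hz | hz)
        · rcases h1 hz with h | h
          · exact Or.inl (Or.inl ⟨h, hz⟩)
          · rcases hz with hz | hz
            · exact Or.inl (Or.inl ⟨h3 hz, Or.inl hz⟩)
            · exact Or.inr ⟨h, hz⟩
        · exact Or.inl (Or.inr hz)) (by
        rw [eq_empty_iff_forall_notMem] at h2 ⊢
        rintro z ⟨-, hz | hz, hv, hm⟩
        · exact h2 z ⟨hz.2, hz.1, hv⟩
        · exact h2 z ⟨Or.inr hm, h3 (hMN ⟨hm, hz⟩), hv⟩)
    rcases this with h | h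
    · intro z hz
      rcases h (e.subset (Or.inl hz)) with k | k
      · exact k.1
      · rcases hz with hz | hz
        · exact h3 hz
        · exact h3 (hMN ⟨hz, k⟩)
    · obtain ⟨z, hz⟩ := hC.nonempty
      rw [eq_empty_iff_forall_notMem] at h2
      exact (h2 z ⟨Or.inl hz, h3 hz, (h (e.subset (Or.inl (Or.inl hz)))).1⟩).elim
  intro u v hu hv h1 h2
  rcases (isPreconnected_iff_subset_of_disjoint_closed.1 hC.2) u v hu hv
    (subset_union_left.trans h1) (by
      rw [eq_empty_iff_forall_notMem] at h2 ⊢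
      exact fun z hz => h2 z ⟨Or.inl hz.1, hz.2⟩) with h | h
  · exact Or.inl (key u v hu hv h1 h2 h)
  · exact Or.inr (key v u hv hu (by rwa [union_comm v]) (by rwa [inter_comm v]) h)

lemma not_indec {Z : Type} [TopologicalSpace Z] [T2Space Z] {R C O : Set Z} (h : Indec R)
    (hC : IsCompact C) (hCc : IsConnected C) (hs : C ⊂ R) (hO : IsOpen O) (h1 : (O ∩ R).Nonempty)
    (h2 : O ∩ R ⊆ C) : False := by
  obtain ⟨hR, hRc, h⟩ := h
  have hS : closure (R \ C) ⊆ R := closure_minimal diff_subset hR.isClosed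
  have hSO : closure (R \ C) ⊆ Oᶜ :=
    closure_minimal (fun z hz ho => hz.2 (h2 ⟨ho, hz.1⟩)) hO.isClosed_compl
  by_cases hp : IsPreconnected (R \ C)
  · obtain ⟨z, hz⟩ := h1
    refine h ⟨C, closure (R \ C), hC, hCc, hs, hR.of_isClosed_subset isClosed_closure hS,
      ⟨(nonempty_of_ssubset hs).closure, hp.closure⟩, ⟨hS, fun k => hSO (k hz.2) hz.1⟩, ?_⟩
    refine Subset.antisymm (union_subset hs.1 hS) fun z hz => ?_
    by_cases k : z ∈ C
    · exact Or.inl k
    · exact Or.inr (subset_closure ⟨hz, k⟩)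
  · rw [isPreconnected_iff_subset_of_disjoint_closed] at hp
    push Not at hp
    obtain ⟨u, v, hu, hv, k1, k2, k3, k4⟩ := hp
    rw [eq_empty_iff_forall_notMem] at k2
    have e : C ∪ (R ∩ u) ∪ (R ∩ v) = R := by
      refine Subset.antisymm (union_subset (union_subset hs.1 inter_subset_left) inter_subset_left)
        fun z hz => ?_
      by_cases k : z ∈ C
      · exact Or.inl (Or.inl k)
      · rcases k1 ⟨hz, k⟩ with t | t
        · exact Or.inl (Or.inr ⟨hz, t⟩)
        · exact Or.inr ⟨hz, t⟩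
    have e' : C ∪ (R ∩ v) ∪ (R ∩ u) = R := by rw [union_right_comm, e]
    have i : R ∩ u ∩ (R ∩ v) ⊆ C := fun z hz => by
      by_contra k
      exact k2 z ⟨⟨hz.1.1, k⟩, hz.1.2, hz.2.2⟩
    obtain ⟨a, ha, ha'⟩ := not_subset.1 k3
    obtain ⟨b, hb, hb'⟩ := not_subset.1 k4
    refine h ⟨C ∪ (R ∩ u), C ∪ (R ∩ v), hC.union (hR.inter_right hu),
      ⟨hCc.nonempty.inl, glue hRc.2 hCc hC.isClosed (hR.isClosed.inter hu) (hR.isClosed.inter hv)
        i e⟩, ⟨union_subset hs.1 inter_subset_left, fun k => ?_⟩, hC.union (hR.inter_right hv),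
      ⟨hCc.nonempty.inl, glue hRc.2 hCc hC.isClosed (hR.isClosed.inter hv) (hR.isClosed.inter hu)
        (by rwa [inter_comm]) e'⟩, ⟨union_subset hs.1 inter_subset_left, fun k => ?_⟩, ?_⟩
    · rcases k ha.1 with t | t
      · exact ha.2 t
      · exact ha' t.2
    · rcases k hb.1 with t | t
      · exact hb.2 t
      · exact hb' t.2
    · rw [← union_union_distrib_left, ← union_assoc, e]

variable {X : Type} [MetricSpace X] [CompactSpace X]

/-- closedness of the set of points whose component meets a closed set -/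
lemma hit_closed {N F : Set X} (hN : IsClosed N) (hF : IsClosed F) :
    IsClosed {x | x ∈ N ∧ (connectedComponentIn N x ∩ F).Nonempty} := by
  refine isClosed_of_closure_subset fun x hx => ?_
  have hxN : x ∈ N := closure_minimal (fun y hy => hy.1) hN hx
  refine ⟨hxN, ?_⟩
  by_contra hc
  obtain ⟨Z, Z', hZ, hZ', hd, hu, hxZ, hF'⟩ := sep hN hF hxN
    (disjoint_iff_inter_eq_empty.2 (not_nonempty_iff_eq_empty.1 hc))
  refine disjoint_left.1 hd hxZ (closure_minimal (fun y hy => ?_) hZ' hx)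
  obtain ⟨hyN, z, hz, hzF⟩ := hy
  rcases (isPreconnected_iff_subset_of_disjoint_closed.1 (isPreconnected_connectedComponentIn
    (x := y) (F := N))) Z Z' hZ hZ' (hu ▸ connectedComponentIn_subset N y)
    (by rw [hd.inter_eq, inter_empty]) with h | h
  · exact (disjoint_left.1 hF' (h hz) hzF).elim
  · exact h (mem_connectedComponentIn hyN)

lemma shrink {N O : Set X} (hN : IsClosed N) {S : Set X} (hS : IsClosed S) (hO : IsOpen O)
    (hne : O.Nonempty) (h : ∀ x ∈ O, x ∈ N ∧ (connectedComponentIn N x ∩ S).Nonempty) {ε : ℝ}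
    (hε : 0 < ε) : ∃ V : Set X, IsOpen V ∧ V.Nonempty ∧ V ⊆ O ∧ ∃ y ∈ S,
      ∀ x ∈ V, (connectedComponentIn N x ∩ closedBall y ε).Nonempty := by
  obtain ⟨t, ht, hf, hc⟩ := finite_cover_balls_of_compact hS.isCompact hε
  have key : ∀ t : Set X, t.Finite → ∀ O : Set X, IsOpen O → O.Nonempty →
      (∀ x ∈ O, x ∈ N ∧ ∃ y ∈ t, (connectedComponentIn N x ∩ closedBall y ε).Nonempty) →
      ∃ V : Set X, IsOpen V ∧ V.Nonempty ∧ V ⊆ O ∧ ∃ y ∈ t,
        ∀ x ∈ V, (connectedComponentIn N x ∩ closedBall y ε).Nonempty := by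
    intro t ht
    induction t, ht using Finite.induction_on with
    | empty =>
      rintro O - ⟨x, hx⟩ h
      obtain ⟨-, y, hy, -⟩ := h x hx
      exact hy.elim
    | @insert a t _ _ ih =>
      intro O hO hne h
      by_cases k : ∀ x ∈ O, (connectedComponentIn N x ∩ closedBall a ε).Nonempty
      · exact ⟨O, hO, hne, Subset.rfl, a, mem_insert _ _, k⟩
      · push Not at k
        obtain ⟨x, hx, hx'⟩ := k
        obtain ⟨V, h1, h2, h3, y, hy, h4⟩ := ih (O ∩ {x | x ∈ N ∧
          (connectedComponentIn N x ∩ closedBall a ε).Nonempty}ᶜ)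
          (hO.inter (hit_closed hN isClosed_closedBall).isOpen_compl)
          ⟨x, hx, fun k => by simpa [hx'] using k.2⟩ (fun z hz => by
            obtain ⟨k1, y, hy, k2⟩ := h z hz.1
            rcases hy with rfl | hy
            · exact (hz.2 ⟨k1, k2⟩).elim
            · exact ⟨k1, y, hy, k2⟩)
        exact ⟨V, h1, h2, h3.trans inter_subset_left, y, mem_insert_of_mem _ hy, h4⟩
  obtain ⟨V, h1, h2, h3, y, hy, h4⟩ := key t hf O hO hne fun x hx => ⟨(h x hx).1, by
    obtain ⟨z, hz, hzS⟩ := (h x hx).2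
    obtain ⟨y, hy, hz'⟩ := mem_iUnion₂.1 (hc hzS)
    exact ⟨y, hy, z, hz, ball_subset_closedBall hz'⟩⟩
  exact ⟨V, h1, h2, h3, y, ht hy, h4⟩

lemma pieces [ConnectedSpace X] {p : X} {r : ℝ} (hr : 0 < r)
    (h : p ∉ interior (connectedComponentIn (closedBall p r) p)) :
    ∃ D : ℕ → Set X, ∃ V : ℕ → Set X, ∃ y : ℕ → ℕ → X, (∀ n, IsClosed (D n)) ∧
      (∀ n, IsClosed (closedBall p r \ D n)) ∧ (∀ n, p ∉ D n) ∧ Pairwise (Function.onFun Disjoint D) ∧
      (∀ n, IsOpen (V n)) ∧ (∀ n, (V n).Nonempty) ∧ (∀ n, V n ⊆ D n ∩ ball p (r / (n + 1))) ∧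
      ∀ n k : ℕ, k ≤ n → y n k ∈ sphere p (r / (k + 1)) ∧ ∀ x ∈ V n,
        (connectedComponentIn (closedBall p (r / (k + 1))) x ∩
          closedBall (y n k) (1 / (n + 1))).Nonempty := by
  have step : ∀ (n : ℕ) (E : Set X), IsClosed E → IsClosed (closedBall p r \ E) → p ∉ E →
      ∃ D : Set X, IsClosed D ∧ IsClosed (closedBall p r \ D) ∧ p ∉ D ∧ Disjoint E D ∧
        D ⊆ closedBall p r ∧ (D ∩ ball p (r / (n + 1))).Nonempty := by
    intro n E h1 h2 h3
    obtain ⟨x, hx, hxK⟩ : ∃ x ∈ ball p (r / (n + 1)) ∩ Eᶜ,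
        x ∉ connectedComponentIn (closedBall p r) p := by
      by_contra hc
      push Not at hc
      exact h (interior_maximal hc (isOpen_ball.inter h1.isOpen_compl)
        ⟨mem_ball_self (by positivity), h3⟩)
    have hxN : x ∈ closedBall p r := ball_subset_closedBall (ball_subset_ball
      (div_le_self hr.le (by linarith [(Nat.cast_nonneg n : (0 : ℝ) ≤ n)])) hx.1)
    obtain ⟨Z, Z', hZ, hZ', hd, hu, hxZ, hp⟩ := sep isClosed_closedBall isClosed_singleton hxN
      (D := {p}) (disjoint_singleton_right.2 fun k => hxK (by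
        rw [← connectedComponentIn_eq k]; exact mem_connectedComponentIn hxN))
    refine ⟨Z ∩ (closedBall p r \ E), hZ.inter h2, ?_, fun k => disjoint_singleton_right.1 hp k.1,
      disjoint_left.2 fun z hz k => k.2.2 hz, fun z hz => hz.2.1, x, ⟨hxZ, hxN, hx.2⟩, hx.1⟩
    have : closedBall p r \ (Z ∩ (closedBall p r \ E)) = Z' ∪ (closedBall p r ∩ E) := by
      ext z
      have t1 : z ∈ closedBall p r ↔ z ∈ Z ∨ z ∈ Z' := by rw [← hu]; rfl
      have t2 : ¬ (z ∈ Z ∧ z ∈ Z') := fun k => disjoint_left.1 hd k.1 k.2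
      simp only [mem_diff, mem_inter_iff, mem_union]
      tauto
    rw [this]
    exact hZ'.union (isClosed_closedBall.inter h1)
  choose! f f1 f2 f3 f4 f5 f6 using step
  let E : ℕ → Set X := fun n => Nat.rec ∅ (fun n E => E ∪ f n E) n
  have hE : ∀ n, IsClosed (E n) ∧ IsClosed (closedBall p r \ E n) ∧ p ∉ E n := by
    intro n
    induction n with
    | zero => exact ⟨isClosed_empty, by simpa [E] using isClosed_closedBall, id⟩
    | succ n ih =>
      obtain ⟨a, b, c⟩ := ih
      refine ⟨a.union (f1 n _ a b c), ?_, fun k => k.elim c (f3 n _ a b c)⟩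
      show IsClosed (closedBall p r \ (E n ∪ f n (E n)))
      rw [← diff_inter_diff]
      exact b.inter (f2 n _ a b c)
  have hEm : Monotone E := monotone_nat_of_le_succ fun n => subset_union_left
  let D : ℕ → Set X := fun n => f n (E n)
  have D1 : ∀ n, IsClosed (D n) := fun n => f1 n _ (hE n).1 (hE n).2.1 (hE n).2.2
  have D2 : ∀ n, IsClosed (closedBall p r \ D n) := fun n => f2 n _ (hE n).1 (hE n).2.1 (hE n).2.2
  have D3 : ∀ n, p ∉ D n := fun n => f3 n _ (hE n).1 (hE n).2.1 (hE n).2.2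
  have D4 : ∀ n, Disjoint (E n) (D n) := fun n => f4 n _ (hE n).1 (hE n).2.1 (hE n).2.2
  have D6 : ∀ n, (D n ∩ ball p (r / (n + 1))).Nonempty :=
    fun n => f6 n _ (hE n).1 (hE n).2.1 (hE n).2.2
  have rle : ∀ {k n : ℕ}, k ≤ n → r / (n + 1) ≤ r / (k + 1) := fun h =>
    div_le_div_of_nonneg_left hr.le (by positivity) (by exact_mod_cast Nat.succ_le_succ h)
  have rle' : ∀ n : ℕ, r / (n + 1) ≤ r := fun n => by simpa using rle (Nat.zero_le n)
  have op : ∀ n (s : ℝ), s ≤ r → IsOpen (D n ∩ ball p s) := fun n s hs => by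
    have : D n ∩ ball p s = (closedBall p r \ D n)ᶜ ∩ ball p s := by
      ext z
      have : z ∈ ball p s → z ∈ closedBall p r := fun k =>
        ball_subset_closedBall (ball_subset_ball hs k)
      simp only [mem_inter_iff, mem_compl_iff, mem_diff]
      tauto
    rw [this]
    exact (D2 n).isOpen_compl.inter isOpen_ball
  have bump : ∀ n (s : ℝ), s ≤ r → ∀ x ∈ D n ∩ closedBall p s,
      (connectedComponentIn (closedBall p s) x ∩ sphere p s).Nonempty := by
    intro n s hs x hx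
    by_contra hc
    obtain ⟨Z, Z', hZ, hZ', hd, hu, hxZ, hF⟩ := sep isClosed_closedBall isClosed_sphere hx.2
      (disjoint_iff_inter_eq_empty.2 (not_nonempty_iff_eq_empty.1 hc))
    have : Z ∩ D n = Z'ᶜ ∩ (D n ∩ ball p s) := by
      ext z
      have t1 : z ∈ closedBall p s ↔ z ∈ Z ∨ z ∈ Z' := by rw [← hu]; rfl
      have t2 : ¬ (z ∈ Z ∧ z ∈ Z') := fun k => disjoint_left.1 hd k.1 k.2
      have t3 : ¬ (z ∈ Z ∧ z ∈ sphere p s) := fun k => disjoint_left.1 hF k.1 k.2
      have t4 : z ∈ closedBall p s ↔ z ∈ ball p s ∨ z ∈ sphere p s := by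
        rw [← ball_union_sphere]; rfl
      simp only [mem_inter_iff, mem_compl_iff]
      tauto
    have hcl : IsClopen (Z ∩ D n) :=
      ⟨hZ.inter (D1 n), this ▸ hZ'.isOpen_compl.inter (op n s hs)⟩
    have := hcl.eq_univ ⟨x, hxZ, hx.1⟩
    exact D3 n (this ▸ mem_univ p : p ∈ Z ∩ D n).2
  have main : ∀ n m : ℕ, m ≤ n + 1 → ∃ V : Set X, ∃ y : ℕ → X, IsOpen V ∧ V.Nonempty ∧
      V ⊆ D n ∩ ball p (r / (n + 1)) ∧ ∀ k : ℕ, k < m → y k ∈ sphere p (r / (k + 1)) ∧ ∀ x ∈ V,
        (connectedComponentIn (closedBall p (r / (k + 1))) x ∩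
          closedBall (y k) (1 / (n + 1))).Nonempty := by
    intro n m
    induction m with
    | zero => exact fun _ => ⟨_, fun _ => p, op n _ (rle' n), D6 n, Subset.rfl, by simp⟩
    | succ m ih =>
      intro hm
      obtain ⟨V, y, h1, h2, h3, h4⟩ := ih (by omega)
      have hsub : ∀ x ∈ V, x ∈ closedBall p (r / (m + 1)) := fun x hx =>
        ball_subset_closedBall (ball_subset_ball (rle (by omega)) (h3 hx).2)
      obtain ⟨W, k1, k2, k3, z, hz, k4⟩ := shrink isClosed_closedBall isClosed_sphere h1 h2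
        (fun x hx => ⟨hsub x hx, bump n _ (rle' m) x ⟨(h3 hx).1, hsub x hx⟩⟩)
        (ε := 1 / (n + 1)) (by positivity)
      refine ⟨W, Function.update y m z, k1, k2, k3.trans h3, fun k hk => ?_⟩
      by_cases e : k = m
      · subst e
        rw [Function.update_self]
        exact ⟨hz, k4⟩
      · rw [Function.update_of_ne e]
        exact ⟨(h4 k (by omega)).1, fun x hx => (h4 k (by omega)).2 x (k3 hx)⟩
  choose V y h1 h2 h3 h4 using fun n => main n (n + 1) le_rfl
  refine ⟨D, V, y, D1, D2, D3, ?_, h1, h2, h3, fun n k hk => h4 n k (by omega)⟩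
  have k : ∀ m n, m < n → Disjoint (D m) (D n) := fun m n hmn =>
    (D4 n).mono_left (subset_union_right.trans (hEm (Nat.succ_le_of_lt hmn)))
  intro m n hmn
  rcases lt_or_gt_of_ne hmn with h | h
  · exact k m n h
  · exact (k n m h).symm

theorem result (X : Type) [MetricSpace X] [CompactSpace X] [ConnectedSpace X] (p : X)
    (H : Indec (range (stoneCechUnit : {x // x ≠ p} → StoneCech {x // x ≠ p}))ᶜ) :
    ∀ U : Set X, IsOpen U → p ∈ U → ∃ C : Set X, C ⊆ U ∧ IsConnected C ∧ p ∈ interior C := by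
  intro U hU hp
  by_contra hcon
  push Not at hcon
  obtain ⟨r, hr, hrU⟩ := nhds_basis_closedBall.mem_iff.1 (hU.mem_nhds hp)
  obtain ⟨D, V, y, D1, D2, D3, D4, V1, V2, V3, hy⟩ := pieces hr
    (hcon _ ((connectedComponentIn_subset _ _).trans hrU)
      (isConnected_connectedComponentIn_iff.2 (mem_closedBall_self hr.le)))
  obtain ⟨w, -, φ, hφ, hw⟩ := (isCompact_univ (X := ℕ → X)).tendsto_subseq fun n => mem_univ (y n)
  set u : {x // x ≠ p} → StoneCech {x // x ≠ p} := stoneCechUnit with hu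
  have uc : Continuous u := continuous_stoneCechUnit
  have ud : DenseRange u := denseRange_stoneCechUnit
  let π : StoneCech {x // x ≠ p} → X := stoneCechExtend continuous_subtype_val
  have πc : Continuous π := continuous_stoneCechExtend _
  have πu : ∀ x, π (u x) = x := fun x => stoneCechExtend_stoneCechUnit _ x
  have hR : (range u)ᶜ = π ⁻¹' {p} := by
    ext z
    constructor
    · intro hz
      by_contra hc
      obtain ⟨O1, O2, h1, h2, h3, h4, h5⟩ := t2_separation
        (show z ≠ u ⟨π z, hc⟩ from fun e => hz ⟨_, e.symm⟩)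
      obtain ⟨W, hW, e⟩ := isOpen_induced_iff.1 (h2.preimage uc)
      obtain ⟨x, hx1, hx2⟩ := ud.exists_mem_open (h1.inter (hW.preimage πc))
        ⟨z, h3, show (⟨π z, hc⟩ : {x // x ≠ p}) ∈ Subtype.val ⁻¹' W by rw [e]; exact h4⟩
      rw [mem_preimage, πu] at hx2
      exact disjoint_left.1 h5 hx1 (show x ∈ u ⁻¹' O2 by rw [← e]; exact hx2)
    · rintro hz ⟨x, rfl⟩
      exact x.2 (by rwa [mem_preimage, πu] at hz)
  rw [hR] at H
  have lim : Tendsto (fun n : ℕ => r / ((n : ℝ) + 1)) atTop (𝓝 0) := by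
    simpa [div_eq_mul_inv] using tendsto_one_div_add_atTop_nhds_zero_nat.const_mul r
  have bumpf : ∀ ψ : ℕ → ℕ, StrictMono ψ → ∃ F : StoneCech {x // x ≠ p} → ℝ, Continuous F ∧
      (∀ x, F (u x) ≠ 0 → ∃ n, x.1 ∈ V (ψ n)) ∧ ∃ z ∈ π ⁻¹' {p}, F z = 1 := by
    intro ψ hψ
    choose a ha using fun n => V2 (ψ n)
    have hap : ∀ n, a n ≠ p := fun n e => D3 _ (e ▸ (V3 _ (ha n)).1)
    have ta : Tendsto a atTop (𝓝 p) := by
      rw [tendsto_iff_dist_tendsto_zero]
      exact squeeze_zero (fun _ => dist_nonneg) (fun n => (V3 _ (ha n)).2.le)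
        (lim.comp hψ.tendsto_atTop)
    obtain ⟨f, f0, f1, f2⟩ := exists_continuous_zero_one_of_isClosed
      (s := (Subtype.val ⁻¹' (⋃ n, V (ψ n))ᶜ : Set {x // x ≠ p}))
      (t := Subtype.val ⁻¹' insert p (range a))
      ((isOpen_iUnion fun n => V1 _).isClosed_compl.preimage continuous_subtype_val)
      (ta.isCompact_insert_range.isClosed.preimage continuous_subtype_val) (by
        rw [disjoint_left]
        rintro x h1 (h2 | ⟨n, h2⟩)
        · exact x.2 h2
        · exact h1 (mem_iUnion.2 ⟨n, h2 ▸ ha n⟩))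
    have fc : Continuous fun x => (⟨f x, f2 x⟩ : Icc (0 : ℝ) 1) := f.continuous.subtype_mk _
    have Fc := continuous_subtype_val.comp (continuous_stoneCechExtend fc)
    have Fu : ∀ x, (Subtype.val ∘ stoneCechExtend fc) (u x) = f x := fun x => by
      simp only [Function.comp, hu, stoneCechExtend_stoneCechUnit]
    refine ⟨_, Fc, fun x hx => ?_, ?_⟩
    · by_contra hc
      push Not at hc
      exact hx (by rw [Fu]; exact f0 (by simpa using hc))
    · obtain ⟨z, hz⟩ := exists_clusterPt_of_compactSpace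
        (map (fun n => u ⟨a n, hap n⟩) atTop)
      refine ⟨z, ?_, ?_⟩
      · have h1 := (MapClusterPt.continuousAt_comp (u := fun n => u ⟨a n, hap n⟩) (F := atTop)
          πc.continuousAt hz)
        have e : π ∘ (fun n => u ⟨a n, hap n⟩) = a := funext fun n => πu _
        rw [e] at h1
        exact eq_of_nhds_neBot (h1.clusterPt.mono ta)
      · have h1 := (MapClusterPt.continuousAt_comp (u := fun n => u ⟨a n, hap n⟩) (F := atTop)
          Fc.continuousAt hz)
        have e : (Subtype.val ∘ stoneCechExtend fc) ∘ (fun n => u ⟨a n, hap n⟩) = fun _ => 1 :=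
          funext fun n => by rw [Function.comp, Fu]; exact f1 (Or.inr ⟨n, rfl⟩)
        rw [e] at h1
        exact eq_of_nhds_neBot (h1.clusterPt.mono tendsto_const_nhds)
  have m1 : StrictMono fun n => φ (2 * n) := hφ.comp fun a b h => by omega
  have m2 : StrictMono fun n => φ (2 * n + 1) := hφ.comp fun a b h => by simpa using h
  obtain ⟨F, Fc, F0, z1, hz1, F1⟩ := bumpf _ m1
  obtain ⟨G, Gc, G0, z0, hz0, G1⟩ := bumpf _ m2
  have DD : ∀ n m x, x ∈ D (φ (2 * n)) → x ∉ D (φ (2 * m + 1)) := fun n m x h k =>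
    disjoint_left.1 (D4 (fun e => by have := hφ.injective e; omega)) h k
  have Rc : IsClosed (π ⁻¹' {p}) := isClosed_singleton.preimage πc
  have Zc : IsClosed (π ⁻¹' {p} ∩ {z | F z ≤ 1 / 2}) := Rc.inter (isClosed_le Fc continuous_const)
  have Go : IsOpen {z | 1 / 2 < G z} := isOpen_lt continuous_const Gc
  have WZ : ∀ z, 1 / 2 < G z → F z ≤ 1 / 2 := by
    intro z hz
    by_contra hc
    obtain ⟨x, h1, h2⟩ := ud.exists_mem_open (Go.inter (isOpen_lt continuous_const Fc))
      ⟨z, hz, not_le.1 hc⟩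
    obtain ⟨n, hn⟩ := F0 x (by have : 1 / 2 < F (u x) := h2; linarith)
    obtain ⟨m, hm⟩ := G0 x (by have : 1 / 2 < G (u x) := h1; linarith)
    exact DD n m _ (V3 _ hn).1 (V3 _ hm).1
  have side : ∀ OA OB : Set (StoneCech {x // x ≠ p}), IsOpen OA → IsOpen OB → Disjoint OA OB →
      ∀ k : ℕ, (∀ x, x.1 ∈ closedBall p (r / (k + 1)) → F (u x) = 0 → u x ∈ OA ∪ OB) →
      (∃ h : w k ≠ p, u ⟨w k, h⟩ ∈ OA) → ∀ z ∈ π ⁻¹' {p}, 1 / 2 < G z → z ∉ OB := by
    rintro OA OB hA hB hd k hcov ⟨hwp, hwA⟩ z hz hG hzB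
    obtain ⟨W, hW, e⟩ := isOpen_induced_iff.1 (hA.preimage uc)
    obtain ⟨η, hη, hηW⟩ := Metric.isOpen_iff.1 hW (w k)
      (show (⟨w k, hwp⟩ : {x // x ≠ p}) ∈ Subtype.val ⁻¹' W by rw [e]; exact hwA)
    have t1 : Tendsto (fun n => y (φ (2 * n + 1)) k) atTop (𝓝 (w k)) :=
      (tendsto_pi_nhds.1 hw k).comp (StrictMono.tendsto_atTop fun a b h => by simpa using h)
    have t2 := tendsto_one_div_add_atTop_nhds_zero_nat (𝕜 := ℝ) |>.comp m2.tendsto_atTop
    obtain ⟨n0, hn0⟩ := eventually_atTop.1 (((Metric.tendsto_nhds.1 t1 (η / 2) (by positivity)).and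
      (t2.eventually (gt_mem_nhds (half_pos hη)))).and (m2.tendsto_atTop.eventually_ge_atTop k))
    have hfin : IsClosed (⋃ n ∈ Iio n0, D (φ (2 * n + 1))) :=
      (finite_Iio n0).isClosed_biUnion fun n _ => D1 _
    obtain ⟨x, ⟨h1, h2⟩, h3⟩ := ud.exists_mem_open ((Go.inter hB).inter
      (hfin.isOpen_compl.preimage πc)) ⟨z, ⟨hG, hzB⟩, by
        rw [mem_preimage, show π z = p from hz]
        simp [D3]⟩
    obtain ⟨n, hn⟩ := G0 x (by have : 1 / 2 < G (u x) := h1; linarith)
    rw [mem_preimage, πu] at h3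
    have hn' : n0 ≤ n := not_lt.1 fun h => h3 (mem_biUnion h (V3 _ hn).1)
    obtain ⟨⟨k1, k2⟩, k3⟩ := hn0 n hn'
    obtain ⟨c, hc, hc'⟩ := (hy _ k k3).2 _ hn
    have hle : r / ((φ (2 * n + 1) : ℝ) + 1) ≤ r / (k + 1) :=
      div_le_div_of_nonneg_left hr.le (by positivity) (by exact_mod_cast Nat.succ_le_succ k3)
    have hle' : r / ((k : ℝ) + 1) ≤ r :=
      div_le_self hr.le (by linarith [(Nat.cast_nonneg k : (0 : ℝ) ≤ k)])
    have hxN : x.1 ∈ closedBall p (r / (k + 1)) :=
      ball_subset_closedBall (ball_subset_ball hle (V3 _ hn).2)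
    have hK := isPreconnected_connectedComponentIn (x := x.1) (F := closedBall p (r / (k + 1)))
    have hKs := connectedComponentIn_subset (closedBall p (r / (k + 1))) x.1
    have hKD : connectedComponentIn (closedBall p (r / (k + 1))) x.1 ⊆ D (φ (2 * n + 1)) := by
      rcases (isPreconnected_iff_subset_of_disjoint_closed.1 hK) _ _ (D1 (φ (2 * n + 1)))
        (D2 (φ (2 * n + 1))) (fun v hv => by
          by_cases t : v ∈ D (φ (2 * n + 1))
          · exact Or.inl t
          · exact Or.inr ⟨closedBall_subset_closedBall hle' (hKs hv), t⟩) (by simp) with h | h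
      · exact h
      · exact ((h (mem_connectedComponentIn hxN)).2 (V3 _ hn).1).elim
    have hK' : IsPreconnected (Subtype.val ⁻¹' connectedComponentIn (closedBall p (r / (k + 1))) x.1 :
        Set {x // x ≠ p}) := by
      have := image_preimage_eq_of_subset (f := (Subtype.val : {x // x ≠ p} → X))
        (s := connectedComponentIn (closedBall p (r / (k + 1))) x.1)
        fun v hv => ⟨⟨v, fun e => D3 _ (e ▸ hKD hv)⟩, rfl⟩
      exact IsInducing.subtypeVal.isPreconnected_image.1 (this.symm ▸ hK)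
    have hcp : c ≠ p := fun e => D3 _ (e ▸ hKD hc)
    have := hK'.subset_left_of_subset_union (hA.preimage uc) (hB.preimage uc) (hd.preimage u)
      (fun v hv => hcov v (hKs hv) (by
        by_contra t
        obtain ⟨m, hm⟩ := F0 v t
        exact DD m n _ (V3 _ hm).1 (hKD hv))) ⟨⟨c, hcp⟩, hc, by
          rw [← e]
          refine hηW ?_
          have := dist_triangle c (y (φ (2 * n + 1)) k) (w k)
          rw [mem_closedBall] at hc'
          simp only [Function.comp] at k2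
          rw [mem_ball]
          linarith⟩
    exact disjoint_left.1 hd (this (mem_connectedComponentIn hxN)) h2
  have hz0' : 1 / 2 < G z0 := by rw [G1]; norm_num
  have hz0Z : z0 ∈ π ⁻¹' {p} ∩ {z | F z ≤ 1 / 2} := ⟨hz0, WZ _ hz0'⟩
  refine not_indec H (comp_closed Zc z0).isCompact (isConnected_connectedComponentIn_iff.2 hz0Z)
    ⟨(connectedComponentIn_subset _ _).trans inter_subset_left, fun k => ?_⟩ Go ⟨z0, hz0', hz0⟩ ?_
  · have : F z1 ≤ 1 / 2 := (connectedComponentIn_subset _ _ (k hz1)).2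
    rw [F1] at this; norm_num at this
  rintro z ⟨hG, hz⟩
  by_contra hc
  obtain ⟨A, B, hA, hB, hd, hun, hzA, hz'⟩ := sep Zc isClosed_singleton hz0Z (D := {z})
    (disjoint_singleton_right.2 hc)
  have hzB : z ∈ B := ((hun ▸ ⟨hz, WZ _ hG⟩ : z ∈ A ∪ B)).resolve_left
    (disjoint_singleton_right.1 hz')
  obtain ⟨OA, OB, oA, oB, sA, sB, od⟩ := normal_separation hA hB hd
  have hO : IsOpen (OA ∪ OB ∪ {z | 1 / 2 < F z}) :=
    (oA.union oB).union (isOpen_lt continuous_const Fc)
  have hcl : IsClosed (π '' (OA ∪ OB ∪ {z | 1 / 2 < F z})ᶜ) :=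
    (hO.isClosed_compl.isCompact.image πc).isClosed
  obtain ⟨ε, hε, hεO⟩ := Metric.isOpen_iff.1 hcl.isOpen_compl p (by
    rintro ⟨v, hv, e⟩
    refine hv ?_
    by_cases t : F v ≤ 1 / 2
    · rcases (hun ▸ ⟨e, t⟩ : v ∈ A ∪ B) with h | h
      · exact Or.inl (Or.inl (sA h))
      · exact Or.inl (Or.inr (sB h))
    · exact Or.inr (not_le.1 t))
  obtain ⟨k, hk⟩ := (lim.eventually (gt_mem_nhds hε)).exists
  have hcov : ∀ x, x.1 ∈ closedBall p (r / (k + 1)) → F (u x) = 0 → u x ∈ OA ∪ OB := by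
    intro x h1 h2
    by_contra t
    refine hεO (closedBall_subset_ball hk h1) ⟨u x, ?_, πu x⟩
    rintro (h | h)
    · exact t h
    · have : 1 / 2 < F (u x) := h
      linarith
  have t1 : Tendsto (fun n => y (φ n) k) atTop (𝓝 (w k)) := tendsto_pi_nhds.1 hw k
  have hwS : w k ∈ sphere p (r / (k + 1)) := isClosed_sphere.mem_of_tendsto t1
    ((hφ.tendsto_atTop.eventually_ge_atTop k).mono fun n hn => (hy _ k hn).1)
  have hwp : w k ≠ p := ne_of_mem_sphere hwS (by positivity)
  have hwF : F (u ⟨w k, hwp⟩) = 0 := by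
    by_contra t
    obtain ⟨m, hm⟩ := F0 _ t
    have h1 : IsClosed (closedBall p r \ D (φ (2 * m))) := D2 _
    refine (h1.mem_of_tendsto (b := atTop) (f := fun n => (if h : k ≤ φ n then
      ((hy _ k h).2 _ (V2 (φ n)).some_mem).some else w k)) ?_ ?_).2 (V3 _ hm).1
    · refine t1.congr_dist (squeeze_zero' (Eventually.of_forall fun _ => dist_nonneg) ?_
        ((tendsto_one_div_add_atTop_nhds_zero_nat (𝕜 := ℝ)).comp hφ.tendsto_atTop))
      filter_upwards [hφ.tendsto_atTop.eventually_ge_atTop k] with n hn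
      rw [dif_pos hn, dist_comm]
      exact ((hy _ k hn).2 _ (V2 (φ n)).some_mem).some_mem.2
    · filter_upwards [hφ.tendsto_atTop.eventually_ge_atTop k, eventually_gt_atTop (2 * m)]
        with n hn hn'
      rw [dif_pos hn]
      have hle' : r / ((k : ℝ) + 1) ≤ r :=
        div_le_self hr.le (by linarith [(Nat.cast_nonneg k : (0 : ℝ) ≤ k)])
      have hx := V3 _ (V2 (φ n)).some_mem
      have hxN : (V2 (φ n)).some ∈ closedBall p (r / (k + 1)) :=
        ball_subset_closedBall (ball_subset_ball (div_le_div_of_nonneg_left hr.le (by positivity)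
          (by exact_mod_cast Nat.succ_le_succ hn)) hx.2)
      have hc := ((hy _ k hn).2 _ (V2 (φ n)).some_mem).some_mem.1
      rcases (isPreconnected_iff_subset_of_disjoint_closed.1 (isPreconnected_connectedComponentIn
        (x := (V2 (φ n)).some) (F := closedBall p (r / (k + 1))))) _ _ (D1 (φ (2 * m))) h1
        (fun v hv => by
          by_cases t : v ∈ D (φ (2 * m))
          · exact Or.inl t
          · exact Or.inr ⟨closedBall_subset_closedBall hle' (connectedComponentIn_subset _ _ hv), t⟩)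
        (by simp) with h | h
      · exact (disjoint_left.1 (D4 (hφ hn').ne) (h (mem_connectedComponentIn hxN)) hx.1).elim
      · exact h hc
  rcases hcov ⟨w k, hwp⟩ (sphere_subset_closedBall hwS) hwF with h | h
  · exact side OA OB oA oB od k hcov ⟨hwp, h⟩ z hz hG (sB hzB)
  · exact side OB OA oB oA od.symm k (fun x a b => (hcov x a b).symm) ⟨hwp, h⟩ z0 hz0 hz0' (sA hzA)

end Pool.Agent.Results.MP_19acf5_gt.ImKleinen
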