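import Pool.Agent.H71.Bel5

set_option autoImplicit false

namespace Pool.Agent.Results.MP_19acf5_gt.NoIrred

open Set

/-- `R` is an indecomposable (Hausdorff) continuum. -/
def Indec {Z : Type} [TopologicalSpace Z] (R : Set Z) : Prop :=
  IsCompact R ∧ IsConnected R ∧ ¬ ∃ A B : Set Z, IsCompact A ∧ IsConnected A ∧ A ⊂ R ∧
    IsCompact B ∧ IsConnected B ∧ B ⊂ R ∧ A ∪ B = R

/-- `K` is a continuum irreducible from `q` to `p`. -/
def Irred {X : Type} [TopologicalSpace X] (K : Set X) (q p : X) : Prop :=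
  IsCompact K ∧ IsConnected K ∧ q ∈ K ∧ p ∈ K ∧
    ∀ L : Set X, IsCompact L → IsConnected L → L ⊆ K → q ∈ L → p ∈ L → L = K

theorem result : ∃ (X : Type) (_ : MetricSpace X) (_ : CompactSpace X) (_ : ConnectedSpace X)
    (p : X), Indec (range (stoneCechUnit : {x // x ≠ p} → StoneCech {x // x ≠ p}))ᶜ ∧
      ¬ ∃ (M : Set X) (q : X) (K : Set X), IsCompact M ∧ p ∉ M ∧ Irred K q p ∧
        M ∪ K = univ := by
  have : CompactSpace Pool.Agent.H71.Bel.XS :=
    isCompact_iff_compactSpace.1 Pool.Agent.H71.Bel.XS_compact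
  have m := Pool.Agent.H71.Bel.model
  refine ⟨Pool.Agent.H71.Bel.XS, inferInstance, inferInstance, m.connected, _, m.rem, ?_⟩
  rintro ⟨M, q, K, h1, h2, ⟨h3, h4, h5, h6, h7⟩, h8⟩
  exact m.noirr h1 h2 h3 h4 h5 h6 h7 h8

end Pool.Agent.Results.MP_19acf5_gt.NoIrred
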